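import Pool.Agent.Zk90.KG.Main

/-!
# Kimura-finite direct summands of the noncommutative Chow motives of varieties: classification

Let `X` be a smooth projective variety over a field `k`. The endomorphism ring of the
noncommutative Chow motive `U(perf_dg(X))_ℚ` is `K_0(X × X)_ℚ`, which is the ring of ALL
self-correspondences of `X` with rational coefficients, `⊕_i CH^i(X × X)_ℚ`, under composition
(twist the Chern character by the Todd class). So the direct summands of `U(perf_dg(X))_ℚ` are the
pairs `(X, p)`, where `p` is an idempotent which is a sum of cycles of arbitrary codimensions.
Examples are the noncommutative motives `U(A)_ℚ` of all admissible subcategories `A` of `perf(X)`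
(Kuznetsov components, phantoms), of sheaves of Azumaya algebras, of finite-dimensional algebras of
finite global dimension and so on; almost all known smooth proper dg categories are of this kind.
The Chow motives `(X, q)`, given by idempotents `q` of degree zero (cycles of codimension `dim X`),
are sent to the `(X, q)` in `NChow(k)_ℚ`; Tate twists become isomorphisms.

**Theorem.** (1) A direct summand `(X, p)` of `U(perf_dg(X))_ℚ` is Kimura-finite if and only if it is
isomorphic to the direct sum of the images `(X, q_i)` of finitely many indecomposable Chow motives
each of which is even or odd. Nothing is supposed about the other summand `(X, 1 - p)` or about `X`.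

(2) Let `(X, p)` and `(X, p')` be such sums, of `(X, q_i)`, `i < N`, and of `(X, q'_j)`, `j < N'`.
They are isomorphic in `NChow(k)_ℚ` if and only if `N = N'` and, after a permutation, each Chow motive
`(X, q_i)` is isomorphic to a Tate twist of the Chow motive `(X, q'_i)`.

So Q1 for a category `A` with `U(A)_ℚ` a direct summand of some `U(perf_dg(X))_ℚ` is a question about
Chow motives: `U(A)_ℚ` is Kimura-finite if and only if it is the image of a Kimura-finite Chow
motive; and the Kimura-finite direct summands of `U(perf_dg(X))_ℚ` are classified by the finite
multisets of indecomposable even or odd Chow motives `(X, q)`, up to Tate twists.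

It was known that `U(perf_dg(X))_ℚ` is Kimura-finite if the Chow motive of `X` is; the converse (for
the whole motive, where one has to move one idempotent whose complement is also finite-dimensional) is
in `Pool/Agent/N174/KN/Ring.lean`. Here the complement of `p` is arbitrary, and nilpotence holds only
for the endomorphisms which factor through finite-dimensional pieces.

Idea of the proof. Let `R` be the graded ring of self-correspondences with the trace
`tr a = deg (a · Δ)`. The elements `a` such that some exterior (symmetric) power of `a` is zero form
a two-sided ideal `I` (`KG/E.lean`: development of Laplace) which is stable under the scaling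
automorphisms of `R`, so it contains the components of degree zero of its elements. Elements of `I`
are algebraic over `ℚ` (Cayley and Hamilton); they are nilpotent if the traces of their powers
vanish, and have trace zero if they are nilpotent; the traces of nonzero idempotents in `I` are
positive (negative) integers (`KG/C.lean`). Let `J` be the radical of the trace form,
`S = R / J`, which may be of infinite dimension, and `f ≠ 0` an idempotent in `I`. The component of
degree zero of `f` is not nilpotent in `S`, as its trace is `tr f ≠ 0`; from it one obtains an
idempotent `p ∈ I` of degree zero of `S` with `f p ≠ 0`, and a minimal one, since traces are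
integers of one sign. An element of `p S p` is invertible or nilpotent according as its component of
degree zero is. Some `p z f p` is not nilpotent, as otherwise the traces of the nilpotent elements
`f p z f` vanish and `f p` is in the radical. Hence `p` factors through `f` in `S`. This is
lifted to `R` (`KG/D.lean`), and induction on `tr f` gives `f = ∑ u_i v_i`, `v_i u_j = δ_ij q_i`.

Uniqueness (`KG/U.lean`): `tr ((u_i v_i) (u'_j v'_j)) = 0` if `q_i` and `q'_j` are not
isomorphic, since then `(v_i u'_j)(v'_j u_i) ∈ q_i R q_i` is nilpotent; hence the multiplicity of
each isomorphism class is determined by traces. If `a b = q` for `a : q' → q`, `b : q → q'` then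
some `a_r b_(-r)` is not nilpotent, and `a_r` is an isomorphism with a Tate twist.

The setting is the one of the starting files: `C` are the Chow groups with rational coefficients of
a class `𝒱` of smooth projective varieties closed under products (for example all of them), given by
their formal properties (`IsChowProj`).
-/

open CategoryTheory AlgebraicGeometry

set_option autoImplicit false

universe u v

namespace Pool.Agent.Results.MP_6e5bed_ag.DirectSummandsOfVarieties

open Pool.Agent.H914 Pool.Agent.W492.BB Pool.Agent.W550.Corr Pool.Agent.TH133 Pool.Agent.Zk90.KG

/-- (1) A direct summand `(X, p)` of the noncommutative Chow motive of a variety `X` is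
Kimura-finite if and only if it is a direct sum of images of indecomposable Chow motives `(X, q i)`,
each of them even or odd. (2) Two such direct sums are isomorphic if and only if the Chow motives
`(X, q i)` and `(X, q' i)` are the same up to a permutation and Tate twists. -/
theorem result {k : Type u} [Field k] {𝒱 : VarClass k} (C : TheoryData.{u, v, 0} 𝒱 ℚ)
    [IsChowProj C] (hne : ∀ Y : 𝒱.Obj, (1 : C.A Y) ≠ 0) (X : 𝒱.Obj) :
    (∀ p : C.A (X.prod X), C.comp p p = p → (IsKimuraFiniteSummand C p ↔
      ∃ (N : ℕ) (q : Fin N → C.A (X.prod X)), (∀ i, IsIndecChow C (q i)) ∧ IsDirectSum C p q)) ∧
    ∀ (p p' : C.A (X.prod X)) (N N' : ℕ) (q : Fin N → C.A (X.prod X))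
      (q' : Fin N' → C.A (X.prod X)), (∀ i, IsIndecChow C (q i)) → (∀ i, IsIndecChow C (q' i)) →
      IsDirectSum C p q → IsDirectSum C p' q' →
      (AreIsomorphic C p p' ↔ ∃ σ : Fin N ≃ Fin N', ∀ i, AreTwists C (q i) (q' (σ i))) :=
  ⟨fun _ hp => ⟨fun h => forward hne hp h, fun ⟨_, _, hq, h⟩ => backward hq h⟩,
    fun _ _ _ _ _ _ hq hq' h h' => classification hne hq hq' h h'⟩

end Pool.Agent.Results.MP_6e5bed_ag.DirectSummandsOfVarieties
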