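import Pool.Agent.Zk74.KG.Summand

/-!
# Finite groups acting on noncommutative Chow motives and Kimura finiteness

`C` is a `ℚ`-linear, idempotent complete, rigid symmetric monoidal category with finite sums and
`End(1) = ℚ` (`UnitQ`), with a realisation `R` in finite dimensional super vector spaces over a
field `K`: for the problem, the category `NChow(k)_ℚ` of noncommutative Chow motives with periodic
cyclic homology (characteristic zero) or topological periodic cyclic homology. The finite group `G`
acts on the objects `M` and `N` (`a`, `b`). For the problem `M = U(A)` and `N = U(B)` for two smooth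
proper dg categories, and it is sufficient that `G` acts on `A` and `B` weakly, by a homomorphism to
the group of autoequivalences up to isomorphism, as `a g` is only the class of a bimodule in `K_0`.
For a subgroup `H` the quotient of `M` by `H` (`IsQuot`) is the direct summand of the invariants of
`H`, and `QKim a H` says that it is finite-dimensional in the sense of Kimura (`IsKimuraFinite`).
(If `H` acts strictly on `A` it is a direct summand of `U(A^H)` for the equivariant dg category `A^H`,
the untwisted part.)

1. Let `T` be the quotient of `M ⊗ N` by the diagonal action of the whole group (`diag`). Suppose that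
every irreducible rational representation of `G` with a nonzero vector fixed by `H` is dual to one
which occurs in `N` modulo numerical equivalence (`SeesNum`). Then the quotient of `M` by `H` is a
direct summand of a finite sum of copies of `T ⊗ N^∨` (`SummandOfSum`). So it is Kimura finite if `T`
and `N` are, and more generally every property of motives which is stable under sums, tensor products
and direct summands passes from `T` and `N` to it. The condition `SeesNum` can be tested in the
realisation (`Sees`) if `N` satisfies the sign conjecture `CPlus`.

2. If every irreducible rational representation with a nonzero vector fixed by `H` has, for some `j`,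
a nonzero vector fixed by `D j` (`Dominated`), and the quotients of `M` by the `D j` are Kimura
finite, then so is the quotient by `H`. If all irreducible representations have this property, for
example if the `D j` form a partition of a subgroup (`Partitions`), or for an involution `c` the
subgroups `⟨c⟩` and `comms c` generated by the commutators with `c`, then `M` is Kimura finite if and
only if all these quotients are. So if `M` is Kimura finite, then so are all quotients; and for the
group `(ℤ/p)^2` and a prime number `p` it is sufficient to know the quotients by the `p + 1` subgroups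
of order `p`.

3. If `M` is not Kimura finite but its quotients by the subgroups of prime order are, then `G` has a
fixed point free irreducible rational representation, acts faithfully on `M`, all its subgroups of
order `p q` and all its commutative subgroups are cyclic, and it has at most one involution.

Proof of 1. The elements of `ℚ[G]` whose action on `M` factors through a sum of copies of `T ⊗ N^∨`
form a two-sided ideal `I`. For each endomorphism `y` of `N` the partial trace of `∑ a(g) ⊗ b(g) y`,
which factors through `T`, is the action of `∑ tr(b(g) y) g` and factors through `T ⊗ N^∨`; so this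
element is in `I`. A central idempotent `1 - e` of `ℚ[G]` with `I = (e)` has `tr(b((1 - e)^*) y) = 0`
for all `y`, so its product with the sum of the elements of `H` is zero by assumption.
Proof of 2 and 3. The elements of `ℚ[G]` whose action on `M` factors through a Kimura finite object
form a two-sided ideal, to which the arguments for the Künneth conjecture in the starting library
(X252) apply.
-/

set_option autoImplicit false

open CategoryTheory Limits MonoidalCategory
open Pool.Agent.Y112.SR Pool.Agent.Y112.KD Pool.Agent.R905 Pool.Agent.Y116.MT
open Pool.Agent.X252.GA Pool.Agent.X310.Mu Pool.Agent.Zk74.KG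

universe v u w

namespace Pool.Agent.Results.MP_6e5bed_ag.GroupActions

/-- The quotient of `M` by the subgroup `H` is finite-dimensional in the sense of Kimura. -/
def QKim {C : Type u} [Category.{v} C] [Preadditive C] [Linear ℚ C] [MonoidalCategory C]
    [SymmetricCategory C] {G : Type} [Group G] [Fintype G] {M : C} (a : G →* End M)
    (H : Subgroup G) : Prop :=
  ∃ T : C, IsQuot a H T ∧ IsKimuraFinite T

/-- The subgroups `D j` of `P`, finitely many and at least two, form a partition of `P`. -/
def Partitions {G ι : Type} [Group G] (D : ι → Subgroup G) (P : Subgroup G) : Prop :=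
  Finite ι ∧ 2 ≤ Nat.card ι ∧ (∀ j, D j ≤ P) ∧ ∀ g ∈ P, g ≠ 1 → ∃! j, g ∈ D j

section

variable {C : Type u} [Category.{v} C] [Preadditive C] [Linear ℚ C] [MonoidalCategory C]
  [MonoidalPreadditive C] [MonoidalLinear ℚ C] [SymmetricCategory C] [RightRigidCategory C]
  [IsIdempotentComplete C] [HasBinaryBiproducts C] {K : Type w} [Field K]
  (R : SuperRealisation C K) {G : Type} [Group G] [Fintype G]

include R in
lemma qkim_iff (hU : UnitQ C) {M : C} (a : G →* End M) (H : Subgroup G) :
    QKim a H ↔ nA H ∈ kI R hU a := by
  constructor
  · rintro ⟨T, hT, hk⟩
    exact (quot_iff R hU a hT).1 hk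
  · intro h
    obtain ⟨T, hT⟩ := exists_quot a H
    exact ⟨T, hT, (quot_iff R hU a hT).2 h⟩

include R in
lemma all_iff (hU : UnitQ C) {M : C} (a : G →* End M) (H : Subgroup G) :
    (∀ T, IsQuot a H T → IsKimuraFinite T) ↔ QKim a H :=
  (kfq_iff R hU a H).trans (qkim_iff R hU a H).symm

end

/-- Kimura finiteness of an object with an action of a finite group, of its quotients, and of
isotrivial products. -/
theorem result {C : Type u} [Category.{v} C] [Preadditive C] [Linear ℚ C] [MonoidalCategory C]
    [MonoidalPreadditive C] [MonoidalLinear ℚ C] [SymmetricCategory C] [RightRigidCategory C]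
    [IsIdempotentComplete C] [HasBinaryBiproducts C] {K : Type w} [Field K]
    (R : SuperRealisation C K) (hU : UnitQ C) {G : Type} [Group G] [Fintype G] {M : C}
    (a : G →* End M) :
    (∀ (N : C) (b : G →* End N) (T : C), IsQuot (diag a b) ⊤ T →
      (∀ (H : Subgroup G) (Q : C), SeesNum b H → IsQuot a H Q → SummandOfSum Q (T ⊗ Nᘁ)) ∧
      (R.CPlus N → ∀ H, (SeesNum b H ↔ Sees R b H))) ∧
    (∀ (H : Subgroup G) (ι : Type) (D : ι → Subgroup G), Dominated H D →
      (∀ j, QKim a (D j)) → QKim a H) ∧
    (∀ (ι : Type) (D : ι → Subgroup G), (Dominated ⊥ D ∨ ∃ P, Partitions D P) →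
      (IsKimuraFinite M ↔ ∀ j, QKim a (D j))) ∧
    (∀ c : G, c * c = 1 →
      (IsKimuraFinite M ↔ QKim a (Subgroup.zpowers c) ∧ QKim a (comms c))) ∧
    (¬ IsKimuraFinite M → (∀ P : Subgroup G, (Nat.card P).Prime → QKim a P) →
      FixedPointFree G ∧ Function.Injective a ∧
      (∀ (P : Subgroup G) (p q : ℕ), p.Prime → q.Prime → Nat.card P = p * q → IsCyclic P) ∧
      (∀ P : Subgroup G, (∀ x ∈ P, ∀ y ∈ P, x * y = y * x) → IsCyclic P) ∧
      ∀ σ τ : G, orderOf σ = 2 → orderOf τ = 2 → σ = τ) := by
  refine ⟨fun N b T hT => ⟨fun H Q hs hQ => summand hU a b hT hs hQ,
    fun hC H => (sees_iff R hU b hC H).symm⟩, fun H ι D hD h => ?_, fun ι D hD => ?_,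
    fun c hc => ?_, fun h0 hP => ?_⟩
  · exact (all_iff R hU a H).1 (dom R hU a hD fun j => (all_iff R hU a (D j)).2 (h j))
  · have hD' : Dominated (⊥ : Subgroup G) D := by
      rcases hD with hD | ⟨P, hf, h2, hle, hp⟩
      · exact hD
      · exact dominated_partition D P h2 hle hp ⊥
    rw [dom_one R hU a hD']
    exact forall_congr' fun j => all_iff R hU a (D j)
  · rw [invol R hU a hc, all_iff R hU, all_iff R hU]
  · exact struct R hU a h0 fun P hp => (all_iff R hU a P).2 (hP P hp)

end Pool.Agent.Results.MP_6e5bed_ag.GroupActions
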