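import Pool.Agent.Zk90.KR.Hom

/-!
# Kimura-finiteness and endomorphisms with a vanishing exterior or symmetric power

`C` is a `ℚ`-linear rigid symmetric monoidal category whose unit object has the endomorphisms `ℚ`
(`UnitQ`). For the problem: `C` is the category `NChow(k)_ℚ` of noncommutative Chow motives over an
arbitrary field `k`, where `End(U(k)_ℚ) = K_0(k)_ℚ = ℚ`, and `M = U(A)_ℚ` for any smooth proper dg
category `A`. In (3), `R` is a symmetric monoidal functor to finite-dimensional super vector spaces,
for example periodic cyclic homology if `k` has characteristic zero.

`PowerVanishes (-1) f n`, `PowerVanishes 1 f n` (starting library R905, there for idempotents): the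
endomorphism `f` induces zero on the `n`-th exterior, symmetric power.
`IsKimuraFinite M` (R905): there is an idempotent `e` of `M` such that some exterior power of `(M, e)`
and some symmetric power of `(M, 1 - e)` vanish.
`HasSign f`: for some endomorphism `h` of some object `N` with `tr h ≠ 0` some exterior power or some
symmetric power of `f ⊗ h` is zero.
`IsSignedSum S`: `S` is a finite sum of endomorphisms `y f x` of `M` with `x : M ⟶ P`, `f : P ⟶ P`,
`y : P ⟶ M`, where the objects `P` are arbitrary and each `f` has a sign.
`IsFiniteUpToPhantom R M`: `M` is the direct sum of an object with a vanishing exterior power, an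
object with a vanishing symmetric power and an object with zero realisation.

The theorem. (1) `M` is the direct sum of an object with vanishing `n`-th exterior power and an object
with vanishing `m`-th symmetric power if and only if the identity of `M` is the sum of an
endomorphism `a` with `Λ^n a = 0` and an endomorphism `b` with `Sym^m b = 0`. Here `a`, `b` need
neither be idempotent nor commute nor factor through objects of finite dimension.
(2) `M` is Kimura-finite if and only if its identity is a signed sum, if and only if there is a signed
sum `S` such that `1 - S` is nilpotent.
(3) `M` is Kimura-finite up to a phantom if and only if some signed sum acts as the identity on the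
realisation `R(M)`; and `M` is Kimura-finite if and only if, moreover, `M` has no nonzero direct
summand (not even in the idempotent completion) with zero realisation.

Steps of the proof.
(a) The endomorphisms of `M` some exterior power of which vanishes are a two-sided ideal; likewise
for symmetric powers (expansion of `(f + g)^(⊗ N)` in words, exchange of letters).
(b) Contraction of letters: the elements of these ideals satisfy polynomial equations over `ℚ`, a
nonzero idempotent in the first ideal has a positive trace, in the second ideal a negative trace. So
the elements of the intersection are nilpotent. If `a + b = 1` then `a^2 - a` is in the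
intersection, and a polynomial in `a` is the required idempotent.
(c) Tensor cancellation: if `Λ^n (f ⊗ h) = 0` then
`tr (Sym^n h) Λ^n f = 0` and `tr (Λ^n h) Sym^n f = 0` for all large `n`. By Newton's identities the
generating series of `tr (Sym^n h)` and `(-1)^n tr (Λ^n h)` are inverse to each other. If both were
polynomials they would be constant, and `tr h = 0`.
(d) If some exterior power of `a` vanishes then `R(a)` is zero on the odd part; so if `R(a + b) = 1`
then `R(a)` and `R(b)` are the projectors to the even and the odd part. Elements of one of the two
ideals with zero realisation are nilpotent; this lifts `R(a)` and `R(b)` to orthogonal idempotents.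
-/

set_option autoImplicit false

open CategoryTheory Limits MonoidalCategory

universe v u w

namespace Pool.Agent.Results.MP_6e5bed_ag.SignedEndomorphisms

open Pool.Agent.Y112.SR Pool.Agent.Y112.KD Pool.Agent.R905 Pool.Agent.Zk90.KR

/-- Kimura-finiteness, also up to phantoms, in terms of endomorphisms which are not idempotent and do
not factor through objects of finite dimension. -/
theorem result {C : Type u} [Category.{v} C] [Preadditive C] [Linear ℚ C] [MonoidalCategory C]
    [MonoidalPreadditive C] [MonoidalLinear ℚ C] [SymmetricCategory C] [RightRigidCategory C]
    (hU : UnitQ C) (M : C) :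
    (∀ n m : ℕ,
      (∃ e : M ⟶ M, e ≫ e = e ∧ PowerVanishes (-1) e n ∧ PowerVanishes 1 (𝟙 M - e) m) ↔
        ∃ a b : M ⟶ M, PowerVanishes (-1) a n ∧ PowerVanishes 1 b m ∧ a + b = 𝟙 M) ∧
    List.TFAE [
      IsKimuraFinite M,
      IsSignedSum (𝟙 M),
      ∃ S : End M, IsSignedSum (S : M ⟶ M) ∧ IsNilpotent (1 - S)] ∧
    ∀ (K : Type w) [Field K] (R : SuperRealisation C K),
      (IsFiniteUpToPhantom R M ↔ ∃ S : M ⟶ M, IsSignedSum S ∧ R.H.map S = 𝟙 _) ∧
      (IsKimuraFinite M ↔ (∃ S : M ⟶ M, IsSignedSum S ∧ R.H.map S = 𝟙 _) ∧
        ∀ p : M ⟶ M, p ≫ p = p → R.H.map p = 0 → p = 0) :=
  ⟨exact_parts hU M, main hU M, fun _ _ R => hom_main R hU M⟩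

end Pool.Agent.Results.MP_6e5bed_ag.SignedEndomorphisms
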