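import Pool.Agent.Zk51.NK.Explicit

/-!
# Kimura-finiteness of noncommutative Chow motives and the size of Grothendieck groups

Let `A` be a smooth proper dg category over a field `k` with nonzero periodic cyclic homology `HP(A)`
(in characteristic `0`; `TP(A)[1/p]` in characteristic `p`), let `b` be its total dimension, and
suppose that `A` satisfies the noncommutative sign conjecture `C⁺`: the projector of `HP(A)` to its
even part is induced by a class in `K_0(A^op ⊗ A)_ℚ`. This is known for `A = perf(X)`, for ALL smooth
projective `X` over finite fields (Katz and Messing) and for products of curves, surfaces, abelian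
varieties, complete intersections over all fields; it passes to tensor products, opposites,
semi-orthogonal components with `C⁺` and so on. Let `B_n = (A^op ⊗ A)^⊗n`, let `d(n)` be the dimension of
`K_0(B_n)_ℚ`, a number or infinity, and let `ρ(n)`, a number, be the dimension of the quotient of
`K_0(B_n)_ℚ` by the classes which are numerically equivalent to zero (the kernel of the Euler pairing).

**Theorem.** (1) The quotient `d(n) / ρ(n)` converges, for `n → ∞`, to a natural number `N ≥ 1` or to
infinity. `N = 1` if and only if numerically trivial classes in `K_0(B_n)_ℚ` are zero for all `n`. If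
`N` is finite then **the noncommutative Chow motive `U(A)_ℚ` is Kimura-finite**, all `K_0(B_n)_ℚ` are
finite-dimensional, and each product of `N` numerically trivial endomorphisms of `U(A)^⊗n`
(elements of `K_0(B_n)_ℚ`) is zero, for all `n`.

(2) A single inequality is sufficient: if `d(n) < (3 / 2) ρ(n)` for one `n ≥ 128 (b + 2)^2 b^(4 b + 16)`
then `U(A)_ℚ` is Kimura-finite.

So `U(A)_ℚ` is Kimura-finite as soon as `d(n) ≤ c ρ(n)` for infinitely many `n` and one constant `c`,
however large: for the categories with `C⁺` Kimura-finiteness is implied by a bound for the size of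
Grothendieck groups, without any information on the classes themselves. No conjecture is assumed in
the first part: for every `A` with `C⁺` either `U(A)_ℚ` is Kimura-finite or `d(n) / ρ(n) → ∞`.

The setting. `C` is the category `NChow(k)_ℚ`, a `ℚ`-linear idempotent complete rigid symmetric monoidal
category with `Hom (1, U(A)) = K_0(A)_ℚ` in which the endomorphisms of the unit object are the
rational numbers (`IsReal`), `T = U(A)`, `tp T n = U(A)^⊗n`, `tp T n ⟶ tp T n` is `K_0(B_n)_ℚ`; the
numerically trivial morphisms (`NumTriv`) are those whose composites have trace zero. `R` is the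
symmetric monoidal functor to super vector spaces given by `HP` or `TP(-)[1/p]` with coefficients
extended to an algebraically closed field (`SuperRealisation`), `R.CPlus T` is the conjecture `C⁺`, and
`bt R T` is `b`.

Idea of the proof. `S = T ⊗ T^∨` is self-dual, satisfies `C⁺` and contains the unit object as a
summand. By the law of the dimensions of the values of additive functors on the powers of `S`
(`Pool.Agent.N64.AF`, used in the starting files for the Chow groups of the powers of a variety over a
finite field, `MP_4960c7_ag.ProductsVanish`) the limit `N` exists, and if it is finite then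
compositions of `N` numerically trivial endomorphisms of `S^⊗n` vanish. An endomorphism `y` of
`T^⊗n` is zero if `y ⊗ 1` is zero on `S^⊗n`. So numerically trivial endomorphisms of all `T^⊗n` are
nilpotent, the parity projector lifts to a projector of `T`, and exterior (symmetric) powers of large
degree of the two parts vanish, as they are cut out by homologically trivial idempotents. Here `A` is
not supposed to be self-dual, or to be related to a scheme.
-/

set_option autoImplicit false

namespace Pool.Agent.Results.MP_6e5bed_ag.SmallGrothendieckGroups

open CategoryTheory MonoidalCategory Filter Topology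
open Pool.Agent.Y112.SR Pool.Agent.Y112.KD Pool.Agent.N64.AF Pool.Agent.Zk51.NK
open scoped ENNReal

universe v u w

/-- The size of the Grothendieck groups of the powers of `A^op ⊗ A`, the nilpotence of the
numerically trivial classes, and Kimura-finiteness. -/
theorem result {C : Type u} [Category.{v} C] [Preadditive C] [MonoidalCategory C]
    [MonoidalPreadditive C] [SymmetricCategory C] [RightRigidCategory C]
    [Linear ℚ C] [MonoidalLinear ℚ C] [IsIdempotentComplete C]
    {K : Type w} [Field K] [IsAlgClosed K] [Algebra ℚ K] (R : SuperRealisation C K)
    (hR : IsReal ℚ R) (T : C) (hT : R.CPlus T) (hb : 0 < bt R T) :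
    (∃ N : ℕ∞, N ≠ 0 ∧
      Tendsto (fun n => ((dimE ℚ (tp T n ⟶ tp T n) : ℕ∞) : ℝ≥0∞) / numDim ℚ (tp T n) (tp T n))
        atTop (𝓝 (N : ℝ≥0∞)) ∧
      (N = 1 ↔ ∀ (n : ℕ) (y : tp T n ⟶ tp T n), NumTriv y → y = 0) ∧
      ∀ k : ℕ, N = k → (∀ n, Module.Finite ℚ (tp T n ⟶ tp T n)) ∧
        (∀ (n : ℕ) (l : List (End (tp T n))), l.length = k →
          (∀ y ∈ l, NumTriv (y : tp T n ⟶ tp T n)) → l.prod = 0) ∧
        Pool.Agent.R905.IsKimuraFinite T) ∧
    ∀ n : ℕ, 128 * (bt R T + 2) ^ 2 * bt R T ^ (4 * bt R T + 16) ≤ n →
      2 * dimE ℚ (tp T n ⟶ tp T n) < 3 * (numDim ℚ (tp T n) (tp T n) : ℕ∞) →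
        Pool.Agent.R905.IsKimuraFinite T :=
  ⟨end_law hR hT hb, fun _ hn hlt => kimura_explicit hR hT hb hn hlt⟩

end Pool.Agent.Results.MP_6e5bed_ag.SmallGrothendieckGroups
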